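import Mathlib

namespace Pool.Agent.Results.MP_6996b5_co.HookMonotone

open Finset PowerSeries Nat.Partition

/-- The `i`-th row length `λ_i` (rows numbered from `1`), which is `0` when `i` exceeds the
number of parts. -/
def row {n : ℕ} (p : n.Partition) (i : ℕ) : ℕ := (p.parts.sort (· ≥ ·)).getD (i - 1) 0

/-- `λ'_j`, the number of parts that are at least `j` (columns numbered from `1`). -/
def col {n : ℕ} (p : n.Partition) (j : ℕ) : ℕ := Multiset.card (p.parts.filter (fun x => j ≤ x))

/-- `h_k(λ)`: the number of cells `(i, j)` of the Young diagram (`1 ≤ i`, `1 ≤ j ≤ λ_i`) whose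
hook length `λ_i - j + λ'_j - i + 1` equals `k`. -/
def hookCount {n : ℕ} (k : ℕ) (p : n.Partition) : ℕ :=
  #{c ∈ Finset.Icc 1 n ×ˢ Finset.Icc 1 n | c.2 ≤ row p c.1 ∧
      (row p c.1 : ℤ) - c.2 + col p c.2 - c.1 + 1 = k}

/-- `b_{t,k}(n)`: the total number of hooks of length `k` over all `t`-regular partitions
of `n` (no part divisible by `t`). -/
def b (t k n : ℕ) : ℕ := ∑ p ∈ Nat.Partition.restricted n (fun i => ¬ t ∣ i), hookCount k p

theorem getD_ge_iff (l : List ℕ) (hl : l.Pairwise (· ≥ ·)) (s : ℕ) (hs : 1 ≤ s) (i : ℕ) :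
    s ≤ l.getD i 0 ↔ i < (l.filter (fun x => s ≤ x)).length := by
  induction l generalizing i with
  | nil => simp; omega
  | cons a l ih =>
    rw [List.pairwise_cons] at hl
    by_cases has : s ≤ a
    · rw [List.filter_cons_of_pos (by simpa using has)]
      rcases i with _ | i
      · simp [has]
      · simp only [List.getD_cons_succ, List.length_cons]
        rw [ih hl.2 i]
        omega
    · have hnil : (a :: l).filter (fun x => s ≤ x) = [] := by
        rw [List.filter_eq_nil_iff]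
        intro x hx
        rcases List.mem_cons.1 hx with rfl | hx
        · simpa using has
        · have := hl.1 x hx
          simp; omega
      rw [hnil]
      simp only [List.length_nil, Nat.not_lt_zero, iff_false]
      intro h
      rcases i with _ | i
      · exact has (by simpa using h)
      · rw [List.getD_cons_succ] at h
        have h2 : l.getD i 0 ≤ a := by
          rcases Nat.lt_or_ge i l.length with h3 | h3
          · rw [List.getD_eq_getElem _ _ h3]
            exact hl.1 _ (List.getElem_mem _)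
          · rw [List.getD_eq_default _ _ h3]; exact Nat.zero_le _
        omega

theorem row_ge_iff {n : ℕ} (p : n.Partition) {s i : ℕ} (hs : 1 ≤ s) (hi : 1 ≤ i) :
    s ≤ row p i ↔ i ≤ col p s := by
  unfold row col
  rw [getD_ge_iff _ (Multiset.pairwise_sort _ _) s hs]
  have : (p.parts.filter (fun x => s ≤ x)) =
      (((p.parts.sort (· ≥ ·)).filter (fun x => s ≤ x) : List ℕ) : Multiset ℕ) := by
    conv_lhs => rw [← Multiset.sort_eq p.parts (· ≥ ·)]
    rw [Multiset.filter_coe]
  rw [this, Multiset.coe_card]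
  omega

theorem col_succ {n : ℕ} (p : n.Partition) (s : ℕ) :
    col p s = col p (s + 1) + p.parts.count s := by
  unfold col
  rw [Multiset.count_eq_card_filter_eq, ← Multiset.card_add]
  congr 1
  ext x
  simp only [Multiset.count_add, Multiset.count_filter]
  by_cases h1 : x = s
  · subst h1; simp
  · by_cases h2 : s ≤ x
    · have : s + 1 ≤ x := by omega
      simp [h2, this, Ne.symm h1]
    · have : ¬ s + 1 ≤ x := by omega
      simp [h2, this, Ne.symm h1]

theorem row_eq_iff {n : ℕ} (p : n.Partition) {s i : ℕ} (hs : 1 ≤ s) (hi : 1 ≤ i) :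
    row p i = s ↔ col p (s + 1) < i ∧ i ≤ col p s := by
  have h1 := row_ge_iff p hs hi
  have h2 := row_ge_iff p (s := s + 1) (by omega) hi
  omega

theorem col_le {n : ℕ} (p : n.Partition) {s : ℕ} (_hs : 1 ≤ s) : col p s ≤ n := by
  have h1 : Multiset.card p.parts ≤ n := by
    have := p.parts_sum
    conv_rhs => rw [← this]
    have h2 := Multiset.card_nsmul_le_sum (s := p.parts) (a := 1) (fun x hx => p.parts_pos hx)
    simpa using h2
  exact le_trans (Multiset.card_le_card (Multiset.filter_le _ _)) h1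

/-- Cells of hook length 2, described through the parts. -/
theorem hookCount_two {n : ℕ} (p : n.Partition) :
    hookCount 2 p = #{s ∈ Finset.Icc 2 n | s ∈ p.parts ∧ s - 1 ∉ p.parts} +
      #{s ∈ Finset.Icc 1 n | 2 ≤ p.parts.count s} := by
  classical
  set S1 := {s ∈ Finset.Icc 2 n | s ∈ p.parts ∧ s - 1 ∉ p.parts} with hS1
  set S2 := {s ∈ Finset.Icc 1 n | 2 ≤ p.parts.count s} with hS2
  have himg1 : Set.InjOn (fun s : ℕ => (col p s, s - 1)) S1 := by
    intro a ha b hb hab
    simp only [hS1, Finset.coe_filter, Finset.mem_Icc] at ha hb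
    simp only [Prod.mk.injEq] at hab
    have := ha.1; have := hb.1
    omega
  have himg2 : Set.InjOn (fun s : ℕ => (col p s - 1, s)) S2 := by
    intro a ha b hb hab
    simp only [Prod.mk.injEq] at hab
    exact hab.2
  rw [← Finset.card_image_of_injOn himg1, ← Finset.card_image_of_injOn himg2,
    ← Finset.card_union_of_disjoint]
  · unfold hookCount
    congr 1
    ext ⟨i, j⟩
    simp only [Finset.mem_filter, Finset.mem_product, Finset.mem_Icc, Finset.mem_union,
      Finset.mem_image, Prod.mk.injEq, hS1, hS2]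
    constructor
    · rintro ⟨⟨⟨hi1, hi2⟩, hj1, hj2⟩, hle, hhook⟩
      have hcol : i ≤ col p j := (row_ge_iff p hj1 hi1).1 hle
      -- arm + leg = 1
      have hsum : (row p i - j) + (col p j - i) = 1 := by
        push_cast at hhook
        omega
      rcases Nat.lt_or_ge j (row p i) with hlt | hge
      · -- arm one, leg zero
        left
        have hrow : row p i = j + 1 := by omega
        have hci : col p j = i := by omega
        have h3 := (row_eq_iff p (by omega) hi1).1 hrow
        have h4 := col_succ p j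
        have h5 := col_succ p (j + 1)
        refine ⟨j + 1, ⟨⟨by omega, ?_⟩, ?_, ?_⟩, ?_, by omega⟩
        · have : j + 1 ∈ p.parts := by
            rw [← Multiset.count_pos]; omega
          exact Nat.Partition.le_of_mem_parts this
        · rw [← Multiset.count_pos]; omega
        · rw [Nat.add_sub_cancel, ← Multiset.count_eq_zero]; omega
        · omega
      · right
        have hrow : row p i = j := by omega
        have h3 := (row_eq_iff p (by omega) hi1).1 hrow
        have h4 := col_succ p j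
        exact ⟨j, ⟨⟨by omega, by omega⟩, by omega⟩, by omega, rfl⟩
    · rintro (⟨s, ⟨⟨hs1, hs2⟩, hs3, hs4⟩, hs5, hs6⟩ | ⟨s, ⟨⟨hs1, hs2⟩, hs3⟩, hs5, hs6⟩)
      · have h1 := Multiset.count_pos.2 hs3
        have h2 := Multiset.count_eq_zero.2 hs4
        have h4 := col_succ p (s - 1)
        have h5 := col_succ p s
        rw [show s - 1 + 1 = s by omega] at h4
        have hi : 1 ≤ i := by omega
        have hrow : row p i = s := (row_eq_iff p (by omega) hi).2 (by omega)
        have hle := col_le p (s := s) (by omega)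
        have : j = s - 1 := by omega
        subst this
        refine ⟨⟨⟨hi, by omega⟩, by omega, by omega⟩, by omega, ?_⟩
        rw [hrow]
        push_cast
        omega
      · subst hs6
        have h5 := col_succ p s
        have hle := col_le p (s := s) (by omega)
        have hi : 1 ≤ i := by omega
        have hrow : row p i = s := (row_eq_iff p (by omega) hi).2 (by omega)
        refine ⟨⟨⟨hi, by omega⟩, by omega, by omega⟩, by omega, ?_⟩
        rw [hrow]
        push_cast
        omega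
  · rw [Finset.disjoint_left]
    rintro ⟨i, j⟩ h1 h2
    simp only [Finset.mem_filter, Finset.mem_Icc,
      Finset.mem_image, Prod.mk.injEq, hS1, hS2] at h1 h2
    obtain ⟨s, ⟨⟨hs1, hs2⟩, hs3, hs4⟩, hs5, hs6⟩ := h1
    obtain ⟨s', ⟨⟨hs1', hs2'⟩, hs3'⟩, hs5', hs6'⟩ := h2
    apply hs4
    rw [hs6, ← hs6', ← Multiset.count_pos]
    omega

/-- counting restricted partitions containing a given multiset of parts -/
theorem card_restricted_ge (A : ℕ → Prop) [DecidablePred A] (μ : Multiset ℕ)
    (hμ : ∀ i ∈ μ, 0 < i ∧ A i) (n : ℕ) (h : μ.sum ≤ n) :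
    #{p ∈ restricted n A | μ ≤ p.parts} = #(restricted (n - μ.sum) A) := by
  classical
  apply Finset.card_bij' (fun (p : n.Partition) hp =>
      (⟨p.parts - μ, fun hi => p.parts_pos (Multiset.mem_of_le (Multiset.sub_le_self _ _) hi), by
        have hle : μ ≤ p.parts := (Finset.mem_filter.1 hp).2
        have := congrArg Multiset.sum (Multiset.sub_add_cancel hle)
        rw [Multiset.sum_add, p.parts_sum] at this
        omega⟩ : (n - μ.sum).Partition))
    (fun (q : (n - μ.sum).Partition) _ =>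
      (⟨q.parts + μ, fun hi => by
        rcases Multiset.mem_add.1 hi with hi | hi
        · exact q.parts_pos hi
        · exact (hμ _ hi).1, by
        rw [Multiset.sum_add, q.parts_sum]; omega⟩ : n.Partition))
  · intro p hp
    ext1
    exact Multiset.sub_add_cancel (Finset.mem_filter.1 hp).2
  · intro q hq
    ext1
    simp
  · intro p hp
    simp only [restricted, Finset.mem_filter, Finset.mem_univ, true_and] at hp ⊢
    intro i hi
    exact hp.1 i (Multiset.mem_of_le (Multiset.sub_le_self _ _) hi)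
  · intro q hq
    simp only [restricted, Finset.mem_filter, Finset.mem_univ, true_and] at hq ⊢
    refine ⟨fun i hi => ?_, Multiset.le_add_left _ _⟩
    rcases Multiset.mem_add.1 hi with hi | hi
    · exact hq i hi
    · exact (hμ _ hi).2

/-- generating function of partitions with all parts in `A` -/
noncomputable def gfun (A : ℕ → Prop) [DecidablePred A] : ℤ⟦X⟧ :=
  PowerSeries.mk fun n => (#(restricted n A) : ℤ)

theorem card_restricted_ge' (A : ℕ → Prop) [DecidablePred A] (μ : Multiset ℕ)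
    (hμ : ∀ i ∈ μ, 0 < i ∧ A i) (n : ℕ) :
    (#{p ∈ restricted n A | μ ≤ p.parts} : ℤ) = coeff n (gfun A * X ^ μ.sum) := by
  rw [coeff_mul_X_pow']
  split_ifs with h
  · rw [card_restricted_ge A μ hμ n h, gfun, coeff_mk]
  · rw [Nat.cast_eq_zero, Finset.card_eq_zero, Finset.filter_eq_empty_iff]
    intro p _ hle
    apply h
    have h1 := congrArg Multiset.sum (Multiset.sub_add_cancel hle)
    rw [Multiset.sum_add, p.parts_sum] at h1
    omega

/-- all coefficients nonnegative -/
def NN (f : ℤ⟦X⟧) : Prop := ∀ n, 0 ≤ coeff n f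

theorem NN.add {f g : ℤ⟦X⟧} (hf : NN f) (hg : NN g) : NN (f + g) := fun n => by
  rw [map_add]; exact add_nonneg (hf n) (hg n)

theorem NN.mul {f g : ℤ⟦X⟧} (hf : NN f) (hg : NN g) : NN (f * g) := fun n => by
  rw [coeff_mul]; exact Finset.sum_nonneg fun p _ => mul_nonneg (hf _) (hg _)

theorem NN.X_pow (m : ℕ) : NN (X ^ m) := fun n => by
  rw [coeff_X_pow]; split_ifs <;> norm_num

theorem NN.gfun' (A : ℕ → Prop) [DecidablePred A] : NN (gfun A) := fun n => by
  rw [gfun, coeff_mk]; positivity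

theorem NN.sum {ι : Type*} (s : Finset ι) (f : ι → ℤ⟦X⟧) (h : ∀ i ∈ s, NN (f i)) :
    NN (∑ i ∈ s, f i) := fun n => by
  rw [map_sum]; exact Finset.sum_nonneg fun i hi => h i hi n

theorem gfun_mul (A : ℕ → Prop) [DecidablePred A] (a : ℕ) (ha : 0 < a) (hA : A a) :
    gfun A * (1 - X ^ a) = gfun (fun i => A i ∧ i ≠ a) := by
  ext n
  have h1 := card_restricted_ge' A {a} (by simpa using ⟨ha, hA⟩) n
  rw [Multiset.sum_singleton] at h1
  rw [mul_sub, mul_one, map_sub, ← h1, gfun, coeff_mk, gfun, coeff_mk]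
  have h2 : restricted n (fun i => A i ∧ i ≠ a) =
      {p ∈ restricted n A | ¬ ({a} : Multiset ℕ) ≤ p.parts} := by
    ext p
    simp only [restricted, Finset.mem_filter, Finset.mem_univ, true_and, Multiset.singleton_le]
    constructor
    · intro h
      exact ⟨fun i hi => (h i hi).1, fun hmem => (h a hmem).2 rfl⟩
    · rintro ⟨h3, h4⟩ i hi
      exact ⟨h3 i hi, fun h => h4 (h ▸ hi)⟩
  rw [h2]
  have h3 := Finset.card_filter_add_card_filter_not (s := restricted n A)
    (fun p => ({a} : Multiset ℕ) ≤ p.parts)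
  omega

/-- `∑ X^(d i)`. -/
noncomputable def geo (d : ℕ) : ℤ⟦X⟧ := PowerSeries.mk fun n => if d ∣ n then 1 else 0

theorem NN.geo' (d : ℕ) : NN (geo d) := fun n => by
  rw [geo, coeff_mk]; split_ifs <;> norm_num

theorem geo_mul (d : ℕ) (hd : 0 < d) : geo d * (1 - X ^ d) = 1 := by
  ext n
  rw [mul_sub, mul_one, map_sub, coeff_mul_X_pow', geo, coeff_mk, coeff_one]
  rcases Nat.lt_or_ge n d with h | h
  · rw [if_neg (not_le.2 h)]
    by_cases hn : n = 0
    · subst hn; simp
    · have : ¬ d ∣ n := fun hdvd => absurd (Nat.le_of_dvd (Nat.pos_of_ne_zero hn) hdvd) (not_le.2 h)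
      simp [this, hn]
  · obtain ⟨m, rfl⟩ := Nat.exists_eq_add_of_le h
    rw [if_pos h, coeff_mk, Nat.add_sub_cancel_left, if_neg (by omega : ¬ d + m = 0)]
    by_cases h1 : d ∣ m
    · rw [if_pos h1, if_pos ((Nat.dvd_add_right (dvd_refl d)).2 h1)]; norm_num
    · rw [if_neg h1, if_neg (fun h2 => h1 ((Nat.dvd_add_right (dvd_refl d)).1 h2))]; norm_num

theorem gfun_mul12 (A : ℕ → Prop) [DecidablePred A] (h1 : A 1) (h2 : A 2) :
    NN (gfun A * ((1 - X ^ 1) * (1 - X ^ 2))) := by
  rw [← mul_assoc, gfun_mul A 1 one_pos h1, gfun_mul _ 2 two_pos ⟨h2, by norm_num⟩]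
  exact NN.gfun' _

theorem gfun_mul123 (A : ℕ → Prop) [DecidablePred A] (h1 : A 1) (h2 : A 2) (h3 : A 3) :
    NN (gfun A * ((1 - X ^ 1) * (1 - X ^ 2) * (1 - X ^ 3))) := by
  rw [← mul_assoc, ← mul_assoc, gfun_mul A 1 one_pos h1, gfun_mul _ 2 two_pos ⟨h2, by norm_num⟩,
    gfun_mul _ 3 (by norm_num) ⟨⟨h3, by norm_num⟩, by norm_num⟩]
  exact NN.gfun' _

theorem nn_aux1 (a m : ℕ) : NN (geo 1 - X ^ a * ∑ i ∈ range m, (X ^ 2) ^ i) := by
  intro n
  rw [map_sub, geo, coeff_mk, if_pos (one_dvd n), Finset.mul_sum, map_sum]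
  have h : ∀ i ∈ range m, coeff n ((X : ℤ⟦X⟧) ^ a * (X ^ 2) ^ i) = if n = a + 2 * i then 1 else 0 := by
    intro i _
    rw [← pow_mul, ← pow_add, coeff_X_pow]
  rw [Finset.sum_congr rfl h, Finset.sum_boole]
  have h2 : #{i ∈ range m | n = a + 2 * i} ≤ 1 := by
    rw [Finset.card_le_one]
    intro x hx y hy
    simp only [Finset.mem_filter] at hx hy
    omega
  have h3 : ((#{i ∈ range m | n = a + 2 * i} : ℕ) : ℤ) ≤ 1 := by exact_mod_cast h2
  simpa using h3

theorem nn_aux2 (a : ℕ) (ha : Even a) : NN (geo 2 - X ^ a) := by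
  intro n
  rw [map_sub, geo, coeff_mk, coeff_X_pow]
  by_cases h : n = a
  · subst h; simp [ha.two_dvd]
  · simp only [h, if_false, sub_zero]; split_ifs <;> norm_num

theorem nn_aux3 (a : ℕ) (ha : 3 ≤ a) : NN (geo 2 + X ^ 3 * geo 2 - X ^ a * geo 3) := by
  intro n
  rw [map_sub, map_add, coeff_X_pow_mul', coeff_X_pow_mul', geo, geo, coeff_mk]
  simp only [coeff_mk]
  split_ifs <;> first | (exfalso; omega) | norm_num

theorem one_add_X_geo : (1 + X) * geo 2 = geo 1 := by
  have h1 := geo_mul 2 two_pos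
  have h2 := geo_mul 1 one_pos
  calc (1 + X) * geo 2 = (geo 1 * (1 - X ^ 1)) * ((1 + X) * geo 2) := by rw [h2, one_mul]
    _ = geo 1 * (geo 2 * (1 - X ^ 2)) := by ring
    _ = geo 1 := by rw [h1, mul_one]

theorem geo3 : geo 3 = 1 + X ^ 3 + X ^ 6 * geo 3 := by
  have h := geo_mul 3 (by norm_num)
  linear_combination (1 + X ^ 3) * h

theorem term_nn (o t j : ℕ) (ho : Odd o) (ht : 3 ≤ t) (hot : o = t ∨ o = t + 1) :
    NN (gfun (fun i => ¬ o ∣ i) * (X ^ (t * (2 * j + 1)) * (1 - X ^ (2 * j + 1)) -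
      X ^ (t * (2 * j + 2) - 1) * (1 - X) ^ 2 * (1 - X ^ (2 * j + 2)))) := by
  have ho3 : 3 ≤ o := by omega
  have hA1 : ¬ o ∣ 1 := fun h => by have := Nat.le_of_dvd one_pos h; omega
  have hA2 : ¬ o ∣ 2 := fun h => by have := Nat.le_of_dvd two_pos h; omega
  have hexp : t * (2 * j + 2) - 1 = t * (2 * j + 1) + (t - 1) := by
    have : t * (2 * j + 2) = t * (2 * j + 1) + t := by ring
    omega
  rw [hexp, pow_add]
  have hg2 := geo_mul 2 two_pos
  have hg3 := geo_mul 3 (by norm_num)
  set P := gfun (fun i => ¬ o ∣ i) with hP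
  have hQ : NN (P * ((1 - X ^ 1) * (1 - X ^ 2))) := gfun_mul12 _ hA1 hA2
  rcases Nat.eq_zero_or_pos j with rfl | hj
  · rcases Nat.even_or_odd t with hte | hto
    · -- `t` even, so `o = t + 1 ≥ 5`
      have ho5 : 5 ≤ o := by
        rcases hot with h | h
        · exact absurd hte (by rw [← h]; exact Nat.not_even_iff_odd.2 ho)
        · have : t ≠ 3 := fun h => by subst h; exact absurd hte (by decide)
          omega
      have hA3 : ¬ o ∣ 3 := fun h => by have := Nat.le_of_dvd (by norm_num) h; omega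
      have hQ3 : NN (P * ((1 - X ^ 1) * (1 - X ^ 2) * (1 - X ^ 3))) := gfun_mul123 _ hA1 hA2 hA3
      have ht4 : 3 ≤ t - 1 := by
        have : t ≠ 3 := fun h => by subst h; exact absurd hte (by decide)
        omega
      have hN : NN ((geo 2 + X ^ 3 * geo 2 - X ^ (t - 1) * geo 3) + X ^ 6 * geo 3 * geo 2
          + X ^ t * geo 3) :=
        ((nn_aux3 (t - 1) ht4).add (((NN.X_pow 6).mul (NN.geo' 3)).mul (NN.geo' 2))).add
          ((NN.X_pow t).mul (NN.geo' 3))
      have hfin := (hQ3.mul (NN.X_pow (t * (2 * 0 + 1)))).mul hN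
      convert hfin using 1
      have hXt : (X : ℤ⟦X⟧) ^ t = X ^ (t - 1) * X := by
        rw [← pow_succ]; congr 1; omega
      have hg3' := geo3
      have e1 : (geo 2 + X ^ 3 * geo 2 - X ^ (t - 1) * geo 3) + X ^ 6 * geo 3 * geo 2
          + X ^ t * geo 3 = geo 2 * geo 3 - X ^ (t - 1) * (1 - X) * geo 3 := by
        rw [hXt]
        linear_combination (-(geo 2)) * hg3'
      rw [e1]
      have e2 : P * ((1 - X ^ 1) * (1 - X ^ 2) * (1 - X ^ 3)) * X ^ (t * (2 * 0 + 1)) *
          (geo 2 * geo 3 - X ^ (t - 1) * (1 - X) * geo 3)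
          = P * X ^ (t * (2 * 0 + 1)) * ((1 - X) * (geo 2 * (1 - X ^ 2)) * (geo 3 * (1 - X ^ 3))
            - X ^ (t - 1) * (1 - X) ^ 2 * (1 - X ^ 2) * (geo 3 * (1 - X ^ 3))) := by ring
      rw [e2, hg2, hg3]
      ring
    · have hN : NN ((geo 2 - X ^ (t - 1)) + X ^ t) :=
        (nn_aux2 (t - 1) (Nat.Odd.sub_odd hto (by decide))).add (NN.X_pow t)
      have hfin := (hQ.mul (NN.X_pow (t * (2 * 0 + 1)))).mul hN
      convert hfin using 1
      have hXt : (X : ℤ⟦X⟧) ^ t = X ^ (t - 1) * X := by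
        rw [← pow_succ]; congr 1; omega
      rw [hXt]
      have e2 : P * ((1 - X ^ 1) * (1 - X ^ 2)) * X ^ (t * (2 * 0 + 1)) *
          (geo 2 - X ^ (t - 1) + X ^ (t - 1) * X)
          = P * X ^ (t * (2 * 0 + 1)) * ((1 - X) * (geo 2 * (1 - X ^ 2))
            - X ^ (t - 1) * (1 - X) ^ 2 * (1 - X ^ 2)) := by ring
      rw [e2, hg2]
      ring
  · -- `k = 2 j + 1 ≥ 3`
    obtain ⟨m, rfl⟩ : ∃ m, j = m + 1 := ⟨j - 1, by omega⟩
    have hXt : (X : ℤ⟦X⟧) ^ t = X ^ (t - 1) * X := by
      rw [← pow_succ]; congr 1; omega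
    set S : ℤ⟦X⟧ := ∑ i ∈ range (m + 1 + 1), (X ^ 2) ^ i with hS
    set T : ℤ⟦X⟧ := ∑ i ∈ range (2 * m + 1), X ^ i with hT
    have hSmul : (1 - X ^ 2) * S = 1 - X ^ (2 * (m + 1) + 2) := by
      rw [hS, mul_neg_geom_sum, ← pow_mul]; congr 2
    have hTmul : (1 - X) * (1 + X + X ^ 2 * T) = 1 - X ^ (2 * (m + 1) + 1) := by
      have h1 : (1 - X) * T = 1 - X ^ (2 * m + 1) := by rw [hT, mul_neg_geom_sum]
      have h2 : (X : ℤ⟦X⟧) ^ (2 * (m + 1) + 1) = X ^ 2 * X ^ (2 * m + 1) := by
        rw [← pow_add]; congr 1; omega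
      rw [h2]
      linear_combination X ^ 2 * h1
    have hNT : NN T := NN.sum _ _ fun i _ => NN.X_pow i
    have hNS : NN S := NN.sum _ _ fun i _ => by rw [← pow_mul]; exact NN.X_pow _
    have hN : NN ((geo 1 - X ^ (t - 1) * S) + X ^ t * S + X ^ 2 * T * geo 2) :=
      ((nn_aux1 (t - 1) _).add ((NN.X_pow t).mul hNS)).add (((NN.X_pow 2).mul hNT).mul (NN.geo' 2))
    have hfin := (hQ.mul (NN.X_pow (t * (2 * (m + 1) + 1)))).mul hN
    convert hfin using 1
    rw [← one_add_X_geo, hXt]
    have e2 : P * ((1 - X ^ 1) * (1 - X ^ 2)) * X ^ (t * (2 * (m + 1) + 1)) *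
        ((1 + X) * geo 2 - X ^ (t - 1) * S + X ^ (t - 1) * X * S + X ^ 2 * T * geo 2)
        = P * X ^ (t * (2 * (m + 1) + 1)) *
          (((1 - X) * (1 + X + X ^ 2 * T)) * (geo 2 * (1 - X ^ 2))
          - X ^ (t - 1) * (1 - X) ^ 2 * ((1 - X ^ 2) * S)) := by ring
    rw [e2, hg2, hTmul, hSmul]
    ring

/-- the three sums -/
def Bsum (F : ℕ → ℤ) (t n : ℕ) : ℤ :=
  ∑ s ∈ Icc 2 n, (if t ∣ s then 0 else F s)
    - ∑ s ∈ Icc 2 n, (if t ∣ s ∨ t ∣ s - 1 then 0 else F (2 * s - 1))
    + ∑ s ∈ Icc 1 n, (if t ∣ s then 0 else F (2 * s))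

theorem sum_dvd (f : ℕ → ℤ) (t N K : ℕ) (ht : 0 < t) (hf : ∀ s, N < s → f s = 0) (hK : N ≤ K) :
    ∑ s ∈ Icc 1 N, (if t ∣ s then f s else 0) = ∑ k ∈ range K, f (t * (k + 1)) := by
  have hNK : N ≤ t * K := le_trans hK (Nat.le_mul_of_pos_left K ht)
  have h1 : ∑ s ∈ Icc 1 N, (if t ∣ s then f s else 0)
      = ∑ s ∈ Icc 1 (t * K), (if t ∣ s then f s else 0) := by
    apply Finset.sum_subset
    · exact Finset.Icc_subset_Icc_right hNK
    · intro x hx hx'
      simp only [Finset.mem_Icc] at hx hx'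
      rw [hf x (by omega)]
      simp
  rw [h1]
  symm
  apply Finset.sum_of_injOn (fun k => t * (k + 1))
  · intro a _ b _ hab
    simp only at hab
    have := Nat.eq_of_mul_eq_mul_left ht hab
    omega
  · intro k hk
    simp only [Finset.coe_range, Set.mem_Iio] at hk
    simp only [Finset.coe_Icc, Set.mem_Icc]
    exact ⟨Nat.mul_pos ht (by omega), Nat.mul_le_mul_left t hk⟩
  · intro i hi hi'
    rw [if_neg]
    rintro ⟨c, rfl⟩
    apply hi'
    simp only [Finset.mem_Icc] at hi
    have hc : 1 ≤ c := by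
      rcases Nat.eq_zero_or_pos c with rfl | h
      · omega
      · exact h
    have hcK : c ≤ K := Nat.le_of_mul_le_mul_left hi.2 ht
    refine ⟨c - 1, ?_, ?_⟩
    · simp only [Finset.coe_range, Set.mem_Iio]; omega
    · show t * (c - 1 + 1) = t * c
      congr 1; omega
  · intro k _
    rw [if_pos (dvd_mul_right _ _)]

theorem sum_range_two_mul' (f : ℕ → ℤ) (n : ℕ) :
    ∑ k ∈ range (2 * n), f k = ∑ j ∈ range n, (f (2 * j) + f (2 * j + 1)) := by
  induction n with
  | zero => simp
  | succ n ih =>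
    rw [Finset.sum_range_succ, ← ih, show 2 * (n + 1) = 2 * n + 1 + 1 by ring,
      Finset.sum_range_succ, Finset.sum_range_succ]
    ring

theorem Bsum_eq (F : ℕ → ℤ) (t n : ℕ) (ht : 2 ≤ t) (hF : ∀ m, n < m → F m = 0) :
    Bsum F t n = (∑ s ∈ Icc 2 n, F s - ∑ s ∈ Icc 2 n, F (2 * s - 1) + ∑ s ∈ Icc 1 n, F (2 * s))
      - ∑ j ∈ range n, (F (t * (2 * j + 1)) + 2 * F (t * (2 * j + 2)) - F (t * (2 * j + 2) - 1)
        - F (t * (2 * j + 2) + 1)) := by
  have h1 : ¬ t ∣ 1 := fun h => by have := Nat.le_of_dvd one_pos h; omega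
  have hsub : ∀ g : ℕ → ℤ, ∑ s ∈ Icc 2 n, (if t ∣ s then g s else 0)
      = ∑ s ∈ Icc 1 n, (if t ∣ s then g s else 0) := by
    intro g
    apply Finset.sum_subset
    · exact Finset.Icc_subset_Icc_left (by norm_num)
    · intro x hx hx'
      simp only [Finset.mem_Icc] at hx hx'
      have : x = 1 := by omega
      subst this
      rw [if_neg h1]
  -- first sum
  have e1 : ∑ s ∈ Icc 2 n, (if t ∣ s then 0 else F s)
      = ∑ s ∈ Icc 2 n, F s - ∑ j ∈ range n, (F (t * (2 * j + 1)) + F (t * (2 * j + 2))) := by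
    have : ∑ s ∈ Icc 2 n, (if t ∣ s then 0 else F s)
        = ∑ s ∈ Icc 2 n, F s - ∑ s ∈ Icc 2 n, (if t ∣ s then F s else 0) := by
      rw [← Finset.sum_sub_distrib]
      apply Finset.sum_congr rfl
      intro s _
      split_ifs <;> simp
    rw [this, hsub F, sum_dvd F t n (2 * n) (by omega) hF (by omega), sum_range_two_mul']
  -- third sum
  have e3 : ∑ s ∈ Icc 1 n, (if t ∣ s then 0 else F (2 * s))
      = ∑ s ∈ Icc 1 n, F (2 * s) - ∑ j ∈ range n, F (t * (2 * j + 2)) := by
    have : ∑ s ∈ Icc 1 n, (if t ∣ s then 0 else F (2 * s))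
        = ∑ s ∈ Icc 1 n, F (2 * s) - ∑ s ∈ Icc 1 n, (if t ∣ s then F (2 * s) else 0) := by
      rw [← Finset.sum_sub_distrib]
      apply Finset.sum_congr rfl
      intro s _
      split_ifs <;> simp
    rw [this, sum_dvd (fun s => F (2 * s)) t n n (by omega) (fun s hs => hF _ (by omega)) le_rfl]
    congr 1
    apply Finset.sum_congr rfl
    intro j _
    congr 1
    ring
  -- second sum
  have e2 : ∑ s ∈ Icc 2 n, (if t ∣ s ∨ t ∣ s - 1 then 0 else F (2 * s - 1))
      = ∑ s ∈ Icc 2 n, F (2 * s - 1) - ∑ j ∈ range n, F (t * (2 * j + 2) - 1)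
        - ∑ j ∈ range n, F (t * (2 * j + 2) + 1) := by
    have h2 : ∑ s ∈ Icc 2 n, (if t ∣ s ∨ t ∣ s - 1 then 0 else F (2 * s - 1))
        = ∑ s ∈ Icc 2 n, F (2 * s - 1) - ∑ s ∈ Icc 2 n, (if t ∣ s then F (2 * s - 1) else 0)
          - ∑ s ∈ Icc 2 n, (if t ∣ s - 1 then F (2 * s - 1) else 0) := by
      rw [← Finset.sum_sub_distrib, ← Finset.sum_sub_distrib]
      apply Finset.sum_congr rfl
      intro s hs
      simp only [Finset.mem_Icc] at hs
      by_cases h3 : t ∣ s
      · have h4 : ¬ t ∣ s - 1 := by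
          intro h4
          have := Nat.dvd_sub h3 h4
          rw [show s - (s - 1) = 1 by omega] at this
          exact h1 this
        simp [h3, h4]
      · by_cases h4 : t ∣ s - 1 <;> simp [h3, h4]
    have h3 : ∑ s ∈ Icc 2 n, (if t ∣ s - 1 then F (2 * s - 1) else 0)
        = ∑ s ∈ Icc 1 n, (if t ∣ s then F (2 * s + 1) else 0) := by
      rcases Nat.eq_zero_or_pos n with rfl | hn
      · simp
      · obtain ⟨m, rfl⟩ : ∃ m, n = m + 1 := ⟨n - 1, by omega⟩
        rw [Finset.sum_Icc_succ_top (by omega) (fun s => if t ∣ s then F (2 * s + 1) else 0),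
          hF (2 * (m + 1) + 1) (by omega), ite_self, add_zero]
        symm
        apply Finset.sum_nbij' (fun s => s + 1) (fun s => s - 1)
        · intro s hs; simp only [Finset.mem_Icc] at hs ⊢; omega
        · intro s hs; simp only [Finset.mem_Icc] at hs ⊢; omega
        · intro s _; simp
        · intro s hs; simp only [Finset.mem_Icc] at hs; omega
        · intro s _
          simp only [Nat.add_sub_cancel]
          rw [show 2 * (s + 1) - 1 = 2 * s + 1 by omega]
    rw [h2, h3, hsub (fun s => F (2 * s - 1)),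
      sum_dvd (fun s => F (2 * s - 1)) t n n (by omega) (fun s hs => hF _ (by omega)) le_rfl,
      sum_dvd (fun s => F (2 * s + 1)) t n n (by omega) (fun s hs => hF _ (by omega)) le_rfl]
    congr 2
    · apply Finset.sum_congr rfl
      intro j _
      congr 2
      ring
    · funext j
      congr 2
      ring
  rw [Bsum, e1, e2, e3]
  simp only [Finset.sum_add_distrib, Finset.sum_sub_distrib, ← Finset.mul_sum]
  ring

theorem Bsum_nonneg (F : ℕ → ℤ) (e n : ℕ) (he : Even e) (hF0 : ∀ m, 0 ≤ F m)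
    (hF : ∀ m, n < m → F m = 0) : 0 ≤ Bsum F e n := by
  have h3 : 0 ≤ ∑ s ∈ Icc 1 n, (if e ∣ s then 0 else F (2 * s)) :=
    Finset.sum_nonneg fun s _ => by split_ifs <;> simp [hF0]
  have h2 : ∑ s ∈ Icc 2 n, (if e ∣ s ∨ e ∣ s - 1 then 0 else F (2 * s - 1))
      ≤ ∑ s ∈ Icc 2 n, (if e ∣ s then 0 else F s) := by
    calc ∑ s ∈ Icc 2 n, (if e ∣ s ∨ e ∣ s - 1 then 0 else F (2 * s - 1))
        ≤ ∑ s ∈ Icc 2 n, F (2 * s - 1) :=
          Finset.sum_le_sum fun s _ => by split_ifs <;> simp [hF0]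
      _ = ∑ s ∈ (Icc 2 n).filter (fun s => 2 * s - 1 ≤ n), F (2 * s - 1) := by
          rw [Finset.sum_filter]
          apply Finset.sum_congr rfl
          intro s _
          split_ifs with h
          · rfl
          · exact hF _ (by omega)
      _ = ∑ m ∈ ((Icc 2 n).filter (fun s => 2 * s - 1 ≤ n)).image (fun s => 2 * s - 1), F m := by
          rw [Finset.sum_image]
          intro a ha b hb hab
          simp only [Finset.coe_filter, Finset.mem_Icc] at ha hb
          have := ha.1; have := hb.1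
          simp only at hab
          omega
      _ = ∑ m ∈ ((Icc 2 n).filter (fun s => 2 * s - 1 ≤ n)).image (fun s => 2 * s - 1),
            (if e ∣ m then 0 else F m) := by
          apply Finset.sum_congr rfl
          intro m hm
          simp only [Finset.mem_image, Finset.mem_filter, Finset.mem_Icc] at hm
          obtain ⟨s, hs, rfl⟩ := hm
          rw [if_neg]
          intro hdvd
          have := (he.two_dvd.trans hdvd)
          omega
      _ ≤ ∑ s ∈ Icc 2 n, (if e ∣ s then 0 else F s) := by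
          apply Finset.sum_le_sum_of_subset_of_nonneg
          · intro m hm
            simp only [Finset.mem_image, Finset.mem_filter, Finset.mem_Icc] at hm ⊢
            omega
          · intro i _ _
            split_ifs <;> simp [hF0]
  unfold Bsum
  linarith

/-! ### The total number of 2-hooks -/

theorem card_part (A : ℕ → Prop) [DecidablePred A] (n s : ℕ) (hs : 0 < s) :
    (#{p ∈ restricted n A | s ∈ p.parts} : ℤ) = if A s then coeff n (gfun A * X ^ s) else 0 := by
  split_ifs with hA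
  · have := card_restricted_ge' A {s} (by simpa using ⟨hs, hA⟩) n
    simpa using this
  · rw [Nat.cast_eq_zero, Finset.card_eq_zero, Finset.filter_eq_empty_iff]
    intro p hp hmem
    exact hA ((Finset.mem_filter.1 hp).2 s hmem)

theorem card_part_pair (A : ℕ → Prop) [DecidablePred A] (n s : ℕ) (hs : 2 ≤ s) :
    (#{p ∈ restricted n A | s ∈ p.parts ∧ s - 1 ∈ p.parts} : ℤ) =
      if A s ∧ A (s - 1) then coeff n (gfun A * X ^ (2 * s - 1)) else 0 := by
  split_ifs with hA
  · have := card_restricted_ge' A {s, s - 1} (by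
      intro i hi
      simp only [Multiset.insert_eq_cons, Multiset.mem_cons, Multiset.mem_singleton] at hi
      rcases hi with rfl | rfl
      · exact ⟨by omega, hA.1⟩
      · exact ⟨by omega, hA.2⟩) n
    have hsum : (({s, s - 1} : Multiset ℕ)).sum = 2 * s - 1 := by
      simp only [Multiset.insert_eq_cons, Multiset.sum_cons, Multiset.sum_singleton]
      omega
    rw [hsum] at this
    rw [← this]
    congr 2
    ext p
    have hnd : ({s, s - 1} : Multiset ℕ).Nodup := by
      simp only [Multiset.insert_eq_cons, Multiset.nodup_cons, Multiset.mem_singleton,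
        Multiset.nodup_singleton, and_true]
      omega
    simp only [Finset.mem_filter, Multiset.le_iff_subset hnd]
    constructor
    · rintro ⟨h1, h2, h3⟩
      refine ⟨h1, fun i hi => ?_⟩
      simp only [Multiset.insert_eq_cons, Multiset.mem_cons, Multiset.mem_singleton] at hi
      rcases hi with rfl | rfl <;> assumption
    · rintro ⟨h1, h2⟩
      exact ⟨h1, h2 (by simp), h2 (by simp)⟩
  · rw [Nat.cast_eq_zero, Finset.card_eq_zero, Finset.filter_eq_empty_iff]
    rintro p hp ⟨h1, h2⟩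
    exact hA ⟨(Finset.mem_filter.1 hp).2 s h1, (Finset.mem_filter.1 hp).2 _ h2⟩

theorem card_part_two (A : ℕ → Prop) [DecidablePred A] (n s : ℕ) (hs : 0 < s) :
    (#{p ∈ restricted n A | 2 ≤ p.parts.count s} : ℤ) =
      if A s then coeff n (gfun A * X ^ (2 * s)) else 0 := by
  split_ifs with hA
  · have := card_restricted_ge' A (Multiset.replicate 2 s) (by
      intro i hi
      rw [Multiset.eq_of_mem_replicate hi]
      exact ⟨hs, hA⟩) n
    rw [Multiset.sum_replicate, smul_eq_mul] at this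
    rw [← this]
    congr 2
    ext p
    simp only [Finset.mem_filter, Multiset.le_count_iff_replicate_le]
  · rw [Nat.cast_eq_zero, Finset.card_eq_zero, Finset.filter_eq_empty_iff]
    intro p hp h
    exact hA ((Finset.mem_filter.1 hp).2 s (Multiset.count_pos.1 (by omega)))

theorem b_two_eq (t n : ℕ) :
    (b t 2 n : ℤ) = Bsum (fun m => coeff n (gfun (fun i => ¬ t ∣ i) * X ^ m)) t n := by
  classical
  unfold b
  simp only [hookCount_two]
  rw [Finset.sum_add_distrib]
  push_cast
  have h1 : ∑ p ∈ restricted n (fun i => ¬ t ∣ i),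
      ((#{s ∈ Icc 2 n | s ∈ p.parts ∧ s - 1 ∉ p.parts} : ℕ) : ℤ)
      = ∑ s ∈ Icc 2 n, ((#{p ∈ restricted n (fun i => ¬ t ∣ i) |
          s ∈ p.parts ∧ s - 1 ∉ p.parts} : ℕ) : ℤ) := by
    simp only [Finset.card_filter]
    push_cast
    rw [Finset.sum_comm]
  have h2 : ∑ p ∈ restricted n (fun i => ¬ t ∣ i),
      ((#{s ∈ Icc 1 n | 2 ≤ p.parts.count s} : ℕ) : ℤ)
      = ∑ s ∈ Icc 1 n, ((#{p ∈ restricted n (fun i => ¬ t ∣ i) |
          2 ≤ p.parts.count s} : ℕ) : ℤ) := by
    simp only [Finset.card_filter]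
    push_cast
    rw [Finset.sum_comm]
  rw [h1, h2, Bsum]
  congr 1
  · rw [← Finset.sum_sub_distrib]
    apply Finset.sum_congr rfl
    intro s hs
    simp only [Finset.mem_Icc] at hs
    have h3 := card_part (fun i => ¬ t ∣ i) n s (by omega)
    have h4 := card_part_pair (fun i => ¬ t ∣ i) n s (by omega)
    have h5 : (#{p ∈ restricted n (fun i => ¬ t ∣ i) | s ∈ p.parts} : ℤ)
        = #{p ∈ restricted n (fun i => ¬ t ∣ i) | s ∈ p.parts ∧ s - 1 ∈ p.parts}
          + #{p ∈ restricted n (fun i => ¬ t ∣ i) | s ∈ p.parts ∧ s - 1 ∉ p.parts} := by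
      rw [← Nat.cast_add, ← Finset.filter_filter, ← Finset.filter_filter,
        Finset.card_filter_add_card_filter_not]
    have h6 : (if t ∣ s then 0 else coeff n (gfun (fun i => ¬ t ∣ i) * X ^ s))
        = if ¬ t ∣ s then coeff n (gfun (fun i => ¬ t ∣ i) * X ^ s) else 0 := by
      rw [ite_not]
    have h7 : (if t ∣ s ∨ t ∣ s - 1 then 0 else
          coeff n (gfun (fun i => ¬ t ∣ i) * X ^ (2 * s - 1)))
        = if ¬ t ∣ s ∧ ¬ t ∣ s - 1 then coeff n (gfun (fun i => ¬ t ∣ i) * X ^ (2 * s - 1))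
          else 0 := by
      generalize coeff n (gfun (fun i => ¬ t ∣ i) * X ^ (2 * s - 1)) = z
      by_cases h8 : t ∣ s <;> by_cases h9 : t ∣ s - 1 <;> simp [h8, h9]
    rw [h6, h7, ← h3, ← h4, h5]
    ring
  · apply Finset.sum_congr rfl
    intro s hs
    simp only [Finset.mem_Icc] at hs
    rw [card_part_two (fun i => ¬ t ∣ i) n s (by omega), ite_not]

/-- Glaisher: the number of `t`-regular partitions is nondecreasing in `t`. -/
theorem gfun_mono (t : ℕ) (ht : 0 < t) :
    NN (gfun (fun i => ¬ (t + 1) ∣ i) - gfun (fun i => ¬ t ∣ i)) := by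
  intro n
  rw [map_sub, gfun, gfun, coeff_mk, coeff_mk, card_restricted_eq_card_countRestricted n ht,
    card_restricted_eq_card_countRestricted n (Nat.succ_pos t), sub_nonneg, Nat.cast_le]
  apply Finset.card_le_card
  intro p hp
  simp only [countRestricted, Finset.mem_filter, Finset.mem_univ, true_and] at hp ⊢
  intro i hi
  exact lt_trans (hp i hi) (Nat.lt_succ_self t)

theorem coeff_vanish (Q : ℤ⟦X⟧) (n m : ℕ) (h : n < m) : coeff n (Q * X ^ m) = 0 := by
  rw [coeff_mul_X_pow', if_neg (by omega)]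

theorem Bsum_sub (Q Q' : ℤ⟦X⟧) (t n : ℕ) :
    Bsum (fun m => coeff n ((Q - Q') * X ^ m)) t n =
      Bsum (fun m => coeff n (Q * X ^ m)) t n - Bsum (fun m => coeff n (Q' * X ^ m)) t n := by
  unfold Bsum
  have e1 : ∀ c : Prop, ∀ [Decidable c], ∀ m, (if c then (0 : ℤ) else coeff n ((Q - Q') * X ^ m))
      = (if c then 0 else coeff n (Q * X ^ m)) - (if c then 0 else coeff n (Q' * X ^ m)) := by
    intro c _ m
    split_ifs
    · simp
    · rw [sub_mul, map_sub]
  simp only [e1, Finset.sum_sub_distrib]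
  ring

/-- The comparison of `Bsum` at `t` and `t + 1` for the same series. -/
theorem Bsum_step (o t n : ℕ) (ho : Odd o) (ht : 3 ≤ t) (hot : o = t ∨ o = t + 1) :
    Bsum (fun m => coeff n (gfun (fun i => ¬ o ∣ i) * X ^ m)) t n ≤
      Bsum (fun m => coeff n (gfun (fun i => ¬ o ∣ i) * X ^ m)) (t + 1) n := by
  set P := gfun (fun i => ¬ o ∣ i) with hP
  rw [Bsum_eq _ t n (by omega) (fun m hm => coeff_vanish P n m hm),
    Bsum_eq _ (t + 1) n (by omega) (fun m hm => coeff_vanish P n m hm)]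
  apply sub_le_sub_left
  apply Finset.sum_le_sum
  intro j _
  have h := term_nn o t j ho ht hot n
  rw [← hP] at h
  have hexp : ∀ u : ℕ, 1 ≤ u → (X : ℤ⟦X⟧) ^ (u * (2 * j + 2) - 1) * (1 - X) ^ 2
      = X ^ (u * (2 * j + 2) - 1) - 2 * X ^ (u * (2 * j + 2)) + X ^ (u * (2 * j + 2) + 1) := by
    intro u hu
    obtain ⟨v, hv⟩ : ∃ v, u * (2 * j + 2) = v + 1 :=
      ⟨u * (2 * j + 2) - 1, by have : 0 < u * (2 * j + 2) := by positivity
                               omega⟩
    rw [hv, Nat.add_sub_cancel]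
    ring
  have hpoly : X ^ (t * (2 * j + 1)) * (1 - X ^ (2 * j + 1)) -
      X ^ (t * (2 * j + 2) - 1) * (1 - X) ^ 2 * (1 - X ^ (2 * j + 2))
      = ((X : ℤ⟦X⟧) ^ (t * (2 * j + 1)) - (X ^ (t * (2 * j + 2) - 1) - 2 * X ^ (t * (2 * j + 2))
          + X ^ (t * (2 * j + 2) + 1)))
        - (X ^ ((t + 1) * (2 * j + 1)) - (X ^ ((t + 1) * (2 * j + 2) - 1)
          - 2 * X ^ ((t + 1) * (2 * j + 2)) + X ^ ((t + 1) * (2 * j + 2) + 1))) := by
    rw [← hexp t (by omega), ← hexp (t + 1) (by omega)]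
    have e1 : (X : ℤ⟦X⟧) ^ ((t + 1) * (2 * j + 1)) = X ^ (t * (2 * j + 1)) * X ^ (2 * j + 1) := by
      rw [← pow_add]; congr 1; ring
    have e2 : (X : ℤ⟦X⟧) ^ ((t + 1) * (2 * j + 2) - 1)
        = X ^ (t * (2 * j + 2) - 1) * X ^ (2 * j + 2) := by
      rw [← pow_add]; congr 1
      have : (t + 1) * (2 * j + 2) = t * (2 * j + 2) + (2 * j + 2) := by ring
      have h2 : 0 < t * (2 * j + 2) := by positivity
      omega
    rw [e1, e2]
    ring
  rw [hpoly] at h
  have h2 : ∀ a b c d a' b' c' d' : ℤ⟦X⟧,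
      coeff n (P * ((a - (b - 2 * c + d)) - (a' - (b' - 2 * c' + d'))))
        = (coeff n (P * a) + 2 * coeff n (P * c) - coeff n (P * b) - coeff n (P * d))
          - (coeff n (P * a') + 2 * coeff n (P * c') - coeff n (P * b') - coeff n (P * d')) := by
    intro a b c d a' b' c' d'
    have h3 : P * ((a - (b - 2 * c + d)) - (a' - (b' - 2 * c' + d')))
        = (P * a + (P * c + P * c) - P * b - P * d)
          - (P * a' + (P * c' + P * c') - P * b' - P * d') := by ring
    rw [h3]
    simp only [map_sub, map_add]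
    ring
  rw [h2] at h
  linarith

/-- **Monotonicity in `t` of 2-hook totals over `t`-regular partitions**: for every `t ≥ 3` and
every `n`, `b_{t+1,2}(n) ≥ b_{t,2}(n)`. -/
theorem result : ∀ t : ℕ, 3 ≤ t → ∀ n : ℕ, b t 2 n ≤ b (t + 1) 2 n := by
  intro t ht n
  have key : (b t 2 n : ℤ) ≤ b (t + 1) 2 n := by
    rw [b_two_eq, b_two_eq]
    have hmono := gfun_mono t (by omega)
    rcases Nat.even_or_odd t with hte | hto
    · -- `t` even: compare at `t` first, then use the series of `t + 1`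
      have h1 := Bsum_step (t + 1) t n hte.add_one ht (Or.inr rfl)
      have h2 := Bsum_nonneg (fun m => coeff n ((gfun (fun i => ¬ (t + 1) ∣ i)
        - gfun (fun i => ¬ t ∣ i)) * X ^ m)) t n hte
        (fun m => (hmono.mul (NN.X_pow m)) n) (fun m hm => coeff_vanish _ n m hm)
      rw [Bsum_sub] at h2
      linarith
    · have h1 := Bsum_step t t n hto ht (Or.inl rfl)
      have h2 := Bsum_nonneg (fun m => coeff n ((gfun (fun i => ¬ (t + 1) ∣ i)
        - gfun (fun i => ¬ t ∣ i)) * X ^ m)) (t + 1) n hto.add_one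
        (fun m => (hmono.mul (NN.X_pow m)) n) (fun m hm => coeff_vanish _ n m hm)
      rw [Bsum_sub] at h2
      linarith
  exact_mod_cast key

end Pool.Agent.Results.MP_6996b5_co.HookMonotone
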